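import Mathlib
import Pool.Agent.X119.TrigInt

set_option autoImplicit false

namespace Pool.Agent.Results.MP_5c394f_nt.IndependentCumulants

open MeasureTheory Filter Topology Finset
open Pool.Agent.X119.Cumul Pool.Agent.X119.TrigInt
open scoped Real

/-- `S_n(ω) = ∑_{k<n} cos(2π a_k ω)` (indices start at `0`). -/
noncomputable def S (a : ℕ → ℕ) (n : ℕ) (ω : ℝ) : ℝ := ∑ k ∈ range n, Real.cos (2 * π * a k * ω)

/-- The `m`-th cumulant of `X` on `[0,1]` with Lebesgue measure. -/
noncomputable def cumulant (X : ℝ → ℝ) (m : ℕ) : ℝ :=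
  iteratedDeriv m (fun t : ℝ => Real.log (∫ ω in Set.Icc (0:ℝ) 1, Real.exp (t * X ω))) 0

/-- `I_0(t) = ∑_j (t/2)^{2j}/(j!)²`. -/
noncomputable def bessel (t : ℝ) : ℝ := ∑' j : ℕ, (t / 2) ^ (2 * j) / ((j.factorial : ℝ)) ^ 2

/-- The constants of the independent model. -/
noncomputable def modelCumulant (m : ℕ) : ℝ := iteratedDeriv m (fun t => Real.log (bessel t)) 0

/-! ### Finding the next term -/

/-- number of excluded values -/
def bd (M s : ℕ) : ℕ := (2 * M + 1) * ((M + 1) * (2 * s + 1) ^ M)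

lemma exists_next (A : Finset ℕ) (M N : ℕ) :
    ∃ b, N ≤ b ∧ b ≤ N + bd M A.card ∧ Good A M b := by
  classical
  set bad : Finset ℕ := (Finset.Icc (-(M:ℤ)) M).biUnion fun c =>
    (range (M + 1)).biUnion fun i => (Lam A i).image (fun x => (x / c).toNat) with hbad
  have hcard : bad.card ≤ bd M A.card := by
    rw [hbad]
    refine (card_biUnion_le_card_mul _ _ ((M + 1) * (2 * A.card + 1) ^ M) ?_).trans ?_
    · intro c _
      refine (card_biUnion_le_card_mul _ _ ((2 * A.card + 1) ^ M) ?_).trans ?_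
      · intro i hi
        rw [mem_range] at hi
        refine card_image_le.trans ((Lam_card A i).trans ?_)
        calc (2 * A.card) ^ i ≤ (2 * A.card + 1) ^ i := Nat.pow_le_pow_left (by omega) _
          _ ≤ (2 * A.card + 1) ^ M := Nat.pow_le_pow_right (by omega) (by omega)
      · rw [card_range]
    · rw [Int.card_Icc, bd]
      apply Nat.mul_le_mul_right
      omega
  have hlt : bad.card < (Finset.Icc N (N + bd M A.card)).card := by
    rw [Nat.card_Icc]; omega
  obtain ⟨b, hb1, hb2⟩ := exists_mem_notMem_of_card_lt_card hlt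
  rw [Finset.mem_Icc] at hb1
  refine ⟨b, hb1.1, hb1.2, ?_⟩
  intro c hc hcM i hi hmem
  apply hb2
  rw [hbad, mem_biUnion]
  refine ⟨c, ?_, ?_⟩
  · rw [Finset.mem_Icc]; exact abs_le.mp hcM
  · rw [mem_biUnion]
    refine ⟨i, mem_range.mpr (by omega), ?_⟩
    rw [mem_image]
    refine ⟨c * b, hmem, ?_⟩
    rw [Int.mul_ediv_cancel_left _ hc]
    simp

/-! ### A slowly growing function -/

lemma slow (f : ℕ → ℕ → ℝ) (hf : ∀ m, Tendsto (f m) atTop (𝓝 0)) :
    ∃ g : ℕ → ℕ, Tendsto g atTop atTop ∧ Tendsto (fun k => f (g k) k) atTop (𝓝 0) := by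
  classical
  have h1 : ∀ m : ℕ, ∃ N : ℕ, ∀ k, N ≤ k → |f m k| ≤ 1 / ((m:ℝ) + 1) := by
    intro m
    have := (Metric.tendsto_atTop.mp (hf m)) (1 / ((m:ℝ) + 1)) (by positivity)
    obtain ⟨N, hN⟩ := this
    refine ⟨N, fun k hk => ?_⟩
    have := hN k hk
    rw [Real.dist_eq, sub_zero] at this
    exact this.le
  choose N hN using h1
  set g : ℕ → ℕ := fun k => Nat.findGreatest (fun m => N m ≤ k) k with hg
  have hg1 : Tendsto g atTop atTop := by
    rw [tendsto_atTop]
    intro m
    filter_upwards [eventually_ge_atTop (max m (N m))] with k hk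
    rw [hg]
    exact Nat.le_findGreatest ((le_max_left _ _).trans hk) ((le_max_right _ _).trans hk)
  refine ⟨g, hg1, ?_⟩
  have h2 : ∀ᶠ k in atTop, |f (g k) k| ≤ 1 / ((g k : ℝ) + 1) := by
    filter_upwards [eventually_ge_atTop (N 0)] with k hk
    apply hN
    exact Nat.findGreatest_spec (P := fun m => N m ≤ k) (Nat.zero_le k) hk
  have h3 : Tendsto (fun k => 1 / ((g k : ℝ) + 1)) atTop (𝓝 0) :=
    tendsto_one_div_add_atTop_nhds_zero_nat.comp hg1
  exact squeeze_zero_norm' (by simpa [Real.norm_eq_abs] using h2) h3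

lemma bd_small (η : ℝ) (hη : 1 < η) (m : ℕ) :
    Tendsto (fun k : ℕ => (1 + (bd m (k + 1) : ℝ)) / η ^ k) atTop (𝓝 0) := by
  have h1 : Tendsto (fun k : ℕ => ((2 * (k:ℝ) + 3) ^ m) / η ^ k) atTop (𝓝 0) := by
    have h2 := tendsto_pow_const_div_const_pow_of_one_lt m hη
    have h3 : Tendsto (fun k : ℕ => (5:ℝ) ^ m * ((k:ℝ) ^ m / η ^ k)) atTop (𝓝 0) := by
      simpa using h2.const_mul ((5:ℝ) ^ m)
    apply squeeze_zero' (Eventually.of_forall fun k => by positivity) _ h3
    filter_upwards [eventually_ge_atTop 1] with k hk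
    have hk' : (1:ℝ) ≤ k := by exact_mod_cast hk
    rw [← mul_div_assoc, ← mul_pow]
    apply div_le_div_of_nonneg_right _ (by positivity)
    apply pow_le_pow_left₀ (by positivity)
    linarith
  have h4 : Tendsto (fun k : ℕ => 1 / η ^ k) atTop (𝓝 0) := by
    have := tendsto_pow_const_div_const_pow_of_one_lt 0 hη
    simpa using this
  have h5 := h4.add (h1.const_mul (((2 * m + 1) * (m + 1) : ℕ) : ℝ))
  simp only [mul_zero, add_zero] at h5
  refine h5.congr fun k => ?_
  unfold bd
  push_cast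
  rw [add_div]
  have : (2 * ((k:ℝ) + 1) + 1) = 2 * k + 3 := by ring
  rw [this]
  ring

lemma bd_mono (M : ℕ) {s t : ℕ} (h : s ≤ t) : bd M s ≤ bd M t := by
  unfold bd
  apply Nat.mul_le_mul_left
  apply Nat.mul_le_mul_left
  exact Nat.pow_le_pow_left (by omega) _

/-! ### The construction -/

/-- the next term after `x`, for the set `A` -/
noncomputable def next (η : ℝ) (A : Finset ℕ) (M x : ℕ) : ℕ :=
  (exists_next A M ⌈η * x⌉₊).choose

lemma next_spec (η : ℝ) (A : Finset ℕ) (M x : ℕ) :
    ⌈η * x⌉₊ ≤ next η A M x ∧ next η A M x ≤ ⌈η * x⌉₊ + bd M A.card ∧ Good A M (next η A M x) :=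
  (exists_next A M ⌈η * x⌉₊).choose_spec

/-- state: the current term and the set of the previous terms -/
noncomputable def st (η : ℝ) (M : ℕ → ℕ) : ℕ → ℕ × Finset ℕ
  | 0 => (1, ∅)
  | k + 1 => (next η (insert (st η M k).1 (st η M k).2) (M k) (st η M k).1,
      insert (st η M k).1 (st η M k).2)

noncomputable def seq (η : ℝ) (M : ℕ → ℕ) (k : ℕ) : ℕ := (st η M k).1

section
variable {η : ℝ} {M : ℕ → ℕ}

lemma st_card (k : ℕ) : (st η M k).2.card ≤ k := by
  induction k with
  | zero => simp [st]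
  | succ k ih =>
    rw [st]
    exact (card_insert_le _ _).trans (by omega)

lemma seq_ge (k : ℕ) : η * seq η M k ≤ seq η M (k + 1) := by
  have h := (next_spec η (insert (st η M k).1 (st η M k).2) (M k) (st η M k).1).1
  have h2 := Nat.le_ceil (η * ((st η M k).1 : ℝ))
  have h3 : ((⌈η * ((st η M k).1 : ℝ)⌉₊ : ℕ) : ℝ) ≤ seq η M (k + 1) := by exact_mod_cast h
  exact h2.trans h3

lemma seq_le (hη : 1 < η) (k : ℕ) :
    (seq η M (k + 1) : ℝ) ≤ η * seq η M k + (1 + bd (M k) (k + 1)) := by
  have h := (next_spec η (insert (st η M k).1 (st η M k).2) (M k) (st η M k).1).2.1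
  have h2 := Nat.ceil_lt_add_one (a := η * ((st η M k).1 : ℝ)) (by positivity)
  have hc : (insert (st η M k).1 (st η M k).2).card ≤ k + 1 := st_card (η := η) (M := M) (k + 1)
  have h4 := bd_mono (M k) hc
  have h3 : (seq η M (k + 1) : ℝ) ≤ ((⌈η * ((st η M k).1 : ℝ)⌉₊ : ℕ) : ℝ) + bd (M k) (k + 1) := by
    have : seq η M (k + 1) ≤ ⌈η * ((st η M k).1 : ℝ)⌉₊ + bd (M k) (k + 1) := h.trans (by omega)
    exact_mod_cast this
  have : (seq η M k : ℝ) = ((st η M k).1 : ℝ) := rfl
  rw [this]
  linarith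

lemma seq_pow (hη : 1 < η) (k : ℕ) : η ^ k ≤ seq η M k := by
  induction k with
  | zero => simp [seq, st]
  | succ k ih =>
    rw [pow_succ, mul_comm]
    exact (mul_le_mul_of_nonneg_left ih (by linarith)).trans (seq_ge k)

lemma seq_pos (hη : 1 < η) (k : ℕ) : 0 < seq η M k := by
  have h := seq_pow (M := M) hη k
  have : (0:ℝ) < η ^ k := by positivity
  have : (0:ℝ) < seq η M k := by linarith
  exact_mod_cast this

lemma seq_strictMono (hη : 1 < η) : StrictMono (seq η M) := by
  apply strictMono_nat_of_lt_succ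
  intro k
  have h := seq_ge (η := η) (M := M) k
  have h0 : (0:ℝ) < seq η M k := by exact_mod_cast seq_pos hη k
  have : (seq η M k : ℝ) < seq η M (k + 1) := by nlinarith
  exact_mod_cast this

lemma st_snd (k : ℕ) : (st η M k).2 = (range k).image (seq η M) := by
  induction k with
  | zero => simp [st]
  | succ k ih =>
    rw [range_add_one, image_insert, ← ih]
    rfl

lemma seq_good (k : ℕ) :
    Good ((range (k + 1)).image (seq η M)) (M k) (seq η M (k + 1)) := by
  have h := (next_spec η (insert (st η M k).1 (st η M k).2) (M k) (st η M k).1).2.2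
  have e : insert (st η M k).1 (st η M k).2 = (range (k + 1)).image (seq η M) := by
    rw [← st_snd (k + 1)]; rfl
  rw [← e]
  exact h

lemma S_eq (hη : 1 < η) (n : ℕ) (ω : ℝ) :
    S (seq η M) n ω = SA ((range n).image (seq η M)) ω := by
  unfold S SA
  rw [sum_image]
  intro x _ y _ h
  exact (seq_strictMono hη).injective h

lemma kap_step (hη : 1 < η) (m n : ℕ) (hm : m ≤ M n) :
    cumulant (S (seq η M) (n + 2)) m = cumulant (S (seq η M) (n + 1)) m + modelCumulant m := by
  have hb := seq_pos (M := M) hη (n + 1)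
  have hG := seq_good (η := η) (M := M) n
  have h := kap_add (SA_bdd ((range (n + 1)).image (seq η M))) (cos_bdd (seq η M (n + 1))) m
    (fun i j hij => factor _ _ _ hb hG i j (hij.trans hm))
  rw [kap_cos _ hb] at h
  have e1 : (S (seq η M) (n + 2)) =
      fun ω => SA ((range (n + 1)).image (seq η M)) ω + Real.cos (2 * π * seq η M (n + 1) * ω) := by
    ext ω
    rw [← S_eq hη]
    unfold S
    rw [sum_range_succ]
  have e2 : (S (seq η M) (n + 1)) = SA ((range (n + 1)).image (seq η M)) := by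
    ext ω; exact S_eq hη _ _
  rw [e1, e2]
  exact h

end

/-- **Q1 holds**: for every real `η > 1` there is a strictly increasing sequence of positive
integers with `a_{k+1}/a_k → η` and independent-model cumulant asymptotics. -/
theorem result : ∀ η : ℝ, 1 < η → ∃ a : ℕ → ℕ, StrictMono a ∧ (∀ k, 0 < a k) ∧
    Tendsto (fun k => (a (k + 1) : ℝ) / a k) atTop (𝓝 η) ∧
    ∀ m : ℕ, 1 ≤ m → Tendsto (fun n : ℕ => cumulant (S a n) m / n) atTop (𝓝 (modelCumulant m)) := by
  intro η hη
  obtain ⟨M, hM1, hM2⟩ := slow (fun m k => (1 + (bd m (k + 1) : ℝ)) / η ^ k) (bd_small η hη)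
  refine ⟨seq η M, seq_strictMono hη, seq_pos hη, ?_, ?_⟩
  · have h1 : Tendsto (fun k => η + (1 + (bd (M k) (k + 1) : ℝ)) / η ^ k) atTop (𝓝 (η + 0)) :=
      hM2.const_add η
    rw [add_zero] at h1
    refine tendsto_of_tendsto_of_tendsto_of_le_of_le tendsto_const_nhds h1 ?_ ?_
    · intro k
      have h0 : (0:ℝ) < seq η M k := by exact_mod_cast seq_pos hη k
      beta_reduce
      rw [le_div_iff₀ h0]
      exact seq_ge k
    · intro k
      have h0 : (0:ℝ) < seq η M k := by exact_mod_cast seq_pos hη k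
      beta_reduce
      rw [div_le_iff₀ h0, add_mul]
      refine (seq_le hη k).trans ?_
      have h2 : (1 + (bd (M k) (k + 1) : ℝ)) ≤ (1 + (bd (M k) (k + 1) : ℝ)) / η ^ k * seq η M k := by
        have h3 := seq_pow (M := M) hη k
        have h4 : (0:ℝ) < η ^ k := by positivity
        rw [div_mul_eq_mul_div, le_div_iff₀ h4]
        exact mul_le_mul_of_nonneg_left h3 (by positivity)
      linarith
  · intro m _
    have h1 : ∀ᶠ n in atTop, m ≤ M n := hM1.eventually (eventually_ge_atTop m)
    rw [eventually_atTop] at h1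
    obtain ⟨n0, hn0⟩ := h1
    have h2 : ∀ d : ℕ, cumulant (S (seq η M) (n0 + 1 + d)) m =
        cumulant (S (seq η M) (n0 + 1)) m + d * modelCumulant m := by
      intro d
      induction d with
      | zero => simp
      | succ d ih =>
        have := kap_step (M := M) hη m (n0 + d) (hn0 _ (by omega))
        have e1 : n0 + d + 2 = n0 + 1 + (d + 1) := by ring
        have e2 : n0 + d + 1 = n0 + 1 + d := by ring
        rw [e1, e2, ih] at this
        rw [this]; push_cast; ring
    set K := cumulant (S (seq η M) (n0 + 1)) m with hK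
    have h3 : Tendsto (fun n : ℕ => modelCumulant m + (K - (n0 + 1) * modelCumulant m) / n) atTop
        (𝓝 (modelCumulant m + 0)) :=
      (tendsto_const_div_atTop_nhds_zero_nat _).const_add _
    rw [add_zero] at h3
    refine h3.congr' ?_
    filter_upwards [eventually_ge_atTop (n0 + 1)] with n hn
    obtain ⟨d, rfl⟩ := Nat.exists_eq_add_of_le hn
    rw [h2 d]
    have : ((n0 + 1 + d : ℕ) : ℝ) ≠ 0 := by positivity
    field_simp
    push_cast
    ring

end Pool.Agent.Results.MP_5c394f_nt.IndependentCumulants
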